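import Pool.Agent.R300.TT.PhaseD
import Pool.Agent.R300.TT.PhaseE

/-!
# The 3/3-power of a graph has chromatic number at most `2Δ + 1`

Colour the vertices of `G` with classes `0, 1, …, Δ` so that class `0` is a maximum independent
set and no vertex with `Δ` neighbours has all of them in one class other than `0`
(`exists_f`; Hall's theorem). Label the out-darts of every vertex `u` injectively by `1, …, Δ` so
that the dart `(u, v)` does not get the class of `v`. If such a labelling has as many symmetric
edges as possible and then as few positions on long directed cycles of one label as possible, there
is no long cycle at all (`exists_iota`), so the darts of each label form a two-colourable functional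
digraph (`exists_two_colouring`). The colour of a dart is its label together with the bit of its
tail, a vertex of class `i ≠ 0` gets `i` with the opposite bit, the class `0` gets the last colour.
The case `Δ = 2` (cycles and paths) is treated directly (`two_case`).
-/

namespace Pool.Agent.Results.MP_f0207f_co.ThreeThirds

open Pool.R300.TT

/-- For every finite graph `G` with maximum degree `Δ ≥ 2`, the chromatic number of the cube of
the 3-subdivision of `G` is at most `2Δ + 1`. -/
theorem result : ∀ (V : Type) [Fintype V] (G : SimpleGraph V) [DecidableRel G.Adj],
    2 ≤ G.maxDegree →
      (power (sub3 G) 3).chromaticNumber ≤ ((2 * G.maxDegree + 1 : ℕ) : ℕ∞) := by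
  intro V _ G _ h2
  apply SimpleGraph.Colorable.chromaticNumber_le
  rcases Nat.lt_or_ge G.maxDegree 3 with h | h
  · classical
    have e : G.maxDegree = 2 := by omega
    rw [e]
    obtain ⟨cv, cd, a1, a2, a3, a4, a5⟩ :=
      two_case G (fun v => (G.degree_le_maxDegree v).trans e.le)
    exact colorable_of_data G (2 * 2 + 1) (by simp) cv cd a1 a2 a3 a4 a5
  · exact main3 G G.maxDegree h (fun v => G.degree_le_maxDegree v)

end Pool.Agent.Results.MP_f0207f_co.ThreeThirds
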